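import Pool.Agent.Lib.MP_348529_lc.OL.Nash
import Pool.Agent.Lib.MP_348529_lc.Round

/-!
One halving round by chaining along the heavy rows and columns of a set.
-/

namespace Pool.Agent.Lib.MP_348529_lc

open Finset Filter Topology

theorem geo_le {r x : ℝ} (hr : 0 < r) (J : ℕ) :
    ∑ j ∈ range J, (if r / 2 ^ (j + 1) < x then r / 2 ^ j else 0) ≤
      max 0 (4 * x - 2 * (r / 2 ^ J)) := by
  induction J with
  | zero => simp
  | succ J ih =>
    have e : r / 2 ^ (J + 1) = r / 2 ^ J / 2 := by rw [pow_succ, div_div]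
    have p : 0 < r / 2 ^ J := by positivity
    rw [sum_range_succ, e]
    split_ifs with h
    · rw [max_eq_right (by linarith)] at ih
      exact le_max_of_le_right (by linarith)
    · rw [add_zero]
      exact ih.trans (max_le_max le_rfl (by linarith))

theorem heavy_le {V : Type} (S : Finset V) {r : ℝ} (hr : 0 < r) {x : V → ℝ}
    (hx : ∀ u ∈ S, 0 ≤ x u) (J : ℕ) :
    ∑ j ∈ range J, r / 2 ^ j * #(S.filter fun u => r / 2 ^ (j + 1) < x u) ≤ 4 * ∑ u ∈ S, x u := by
  have e : ∀ j : ℕ, r / 2 ^ j * #(S.filter fun u => r / 2 ^ (j + 1) < x u) =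
      ∑ u ∈ S, if r / 2 ^ (j + 1) < x u then r / 2 ^ j else 0 := fun j => by
    rw [← sum_filter, sum_const, nsmul_eq_mul, mul_comm]
  simp only [e]
  rw [sum_comm, mul_sum]
  refine sum_le_sum fun u hu => (geo_le hr J).trans (max_le (by linarith [hx u hu]) ?_)
  have : 0 < r / 2 ^ J := by positivity
  linarith

variable {V : Type} [Fintype V] [DecidableEq V]

theorem exists_signs_lam {ι : Type} [DecidableEq ι] (E : Finset ι) (g : ι → Finset V → ℝ)
    (hV : 0 < Fintype.card V) : ∃ σ : ι → ℝ, (∀ e, σ e = 1 ∨ σ e = -1) ∧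
      ∀ A B A' B' : Finset V, A ⊆ A' → B ⊆ B' →
        |∑ e ∈ E, σ e * (lam (g e) A' B' - lam (g e) A B)| ≤
          √(4 * (∑ e ∈ E, (lam (g e) A' B' - lam (g e) A B) ^ 2) *
            ((#A' + #B') * (5 + Real.log (Fintype.card V)))) := by
  set n : ℝ := (Fintype.card V : ℝ) with hn
  have hn1 : 1 ≤ n := by rw [hn]; exact_mod_cast hV
  have hl : 0 ≤ Real.log n := Real.log_nonneg hn1
  let a : (Finset V × Finset V) × Finset V × Finset V → ι → ℝ :=
    fun k e => lam (g e) k.2.1 k.2.2 - lam (g e) k.1.1 k.1.2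
  obtain ⟨σ, hσ, h⟩ := exists_signs (univ.filter fun k => 0 < ∑ e ∈ E, a k e ^ 2) a E
    (fun k => ∑ e ∈ E, a k e ^ 2)
    (fun k => 5 + ((#k.1.1 + #k.1.2) + (#k.2.1 + #k.2.2) : ℕ) * Real.log n)
    (fun k hk => (mem_filter.1 hk).2) (fun k _ => by positivity) (fun k _ => le_rfl) (by
      have e : ∀ N : ℕ, Real.exp (-(5 + N * Real.log n)) = Real.exp (-5) * n⁻¹ ^ N := fun N => by
        rw [neg_add, Real.exp_add, ← mul_neg, Real.exp_nat_mul, Real.exp_neg (Real.log n),
          Real.exp_log (by linarith)]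
      refine (sum_le_sum_of_subset_of_nonneg (filter_subset _ _) fun _ _ _ => by
        positivity).trans_lt ?_
      simp only [e]
      rw [← mul_sum, ← mul_sum, Fintype.sum_prod_type]
      have h8 := sum_pow_card_le hV
      rw [← hn] at h8
      have h0 : 0 ≤ ∑ k : Finset V × Finset V, n⁻¹ ^ (#k.1 + #k.2) := by positivity
      simp only [pow_add _ (_ + _)]
      rw [← sum_mul_sum]
      have h5 : Real.exp (-5) * 128 < 1 := by
        rw [Real.exp_neg, inv_mul_lt_iff₀ (Real.exp_pos _), mul_one,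
          show (5 : ℝ) = (5 : ℕ) * 1 by norm_num, Real.exp_nat_mul]
        calc (128 : ℝ) < 2.7 ^ 5 := by norm_num
          _ ≤ _ := pow_le_pow_left₀ (by norm_num) (by linarith [Real.exp_one_gt_d9]) 5
      have := mul_le_mul h8 h8 h0 (by norm_num)
      nlinarith [Real.exp_pos (-5)])
  refine ⟨σ, hσ, fun A B A' B' hA hB => ?_⟩
  by_cases hp : 0 < ∑ e ∈ E, a ((A, B), A', B') e ^ 2
  · refine (h ((A, B), A', B') (mem_filter.2 ⟨mem_univ _, hp⟩)).trans (Real.sqrt_le_sqrt ?_)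
    have h1 : (1 : ℝ) ≤ #A' + #B' := by
      by_contra hc
      have : #A' + #B' = 0 := by
        have : #A' + #B' < 1 := by exact_mod_cast not_le.1 hc
        omega
      obtain rfl : A' = ∅ := card_eq_zero.1 (by omega)
      obtain rfl : B' = ∅ := card_eq_zero.1 (by omega)
      simp [a, subset_empty.1 hA, subset_empty.1 hB] at hp
    have h2 : (#A : ℝ) ≤ #A' := by exact_mod_cast card_le_card hA
    have h3 : (#B : ℝ) ≤ #B' := by exact_mod_cast card_le_card hB
    have h4 : 5 + ((#A + #B) + (#A' + #B')) * Real.log n ≤ 2 * ((#A' + #B') * (5 + Real.log n)) := by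
      nlinarith
    have := mul_le_mul_of_nonneg_left h4 hp.le
    simp only [a] at this ⊢
    push_cast
    linarith
  · have h0 := (sum_eq_zero_iff_of_nonneg fun e _ => sq_nonneg (a ((A, B), A', B') e)).1
      (le_antisymm (not_lt.1 hp) (sum_nonneg fun e _ => sq_nonneg _))
    rw [sum_eq_zero fun e he => by
      rw [show lam (g e) A' B' - lam (g e) A B = 0 from pow_eq_zero_iff two_ne_zero |>.1 (h0 e he),
        mul_zero], abs_zero]
    exact Real.sqrt_nonneg _

theorem round1 {ι : Type} [DecidableEq ι] (E : Finset ι) (g : ι → Finset V → ℝ)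
    (hg : ∀ e ∈ E, Sub (g e)) (hE : E.Nonempty) (hV : 0 < Fintype.card V) :
    ∃ I ⊆ E, ∃ σ : ι → ℝ, (∀ e, σ e = 1 ∨ σ e = -1) ∧ 2 * #I ≤ #E ∧
      ∀ S, |∑ e ∈ E \ I, σ e * g e S| ≤
        √(2312 * (Fintype.card V : ℝ) ^ 2 * (5 + Real.log (Fintype.card V)) / #E) *
          ∑ e ∈ E, g e S := by
  set n : ℝ := (Fintype.card V : ℝ) with hn
  have hn1 : 1 ≤ n := by rw [hn]; exact_mod_cast hV
  have hl : 0 ≤ Real.log n := Real.log_nonneg hn1
  have hm : (0 : ℝ) < #E := by exact_mod_cast hE.card_pos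
  have hF := Sub.sum hg
  obtain ⟨δ, hδ, hmin⟩ : ∃ δ : ℝ, 0 < δ ∧ ∀ S, 0 < ∑ e ∈ E, g e S → n ^ 2 * δ ≤ ∑ e ∈ E, g e S := by
    rcases (univ.filter fun S => 0 < ∑ e ∈ E, g e S).eq_empty_or_nonempty with h | h
    · exact ⟨1, one_pos, fun S hS => absurd hS (filter_eq_empty_iff.1 h (mem_univ S))⟩
    · obtain ⟨S₀, h1, h2⟩ := exists_min_image _ (fun S => ∑ e ∈ E, g e S) h
      refine ⟨(∑ e ∈ E, g e S₀) / n ^ 2, div_pos (mem_filter.1 h1).2 (by positivity),
        fun S hS => ?_⟩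
      rw [mul_div_cancel₀ _ (by positivity)]
      exact h2 S (mem_filter.2 ⟨mem_univ _, hS⟩)
  obtain ⟨W, τ, hW, hτ0, hτ, hcut, hN⟩ := exists_nash E g hg hδ
  rw [← hn] at hτ hcut
  set t : ℝ := 2 * n ^ 2 / #E with ht
  have ht0 : 0 < t := by positivity
  obtain ⟨σ, hσ, hs⟩ := exists_signs_lam (E \ E.filter fun e => t < τ e) g hV
  rw [← hn] at hs
  refine ⟨E.filter fun e => t < τ e, filter_subset _ _, σ, hσ, ?_, fun S => ?_⟩
  · have h1 : #(E.filter fun e => t < τ e) * t ≤ n ^ 2 := by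
      refine le_trans ?_ ((sum_le_sum_of_subset_of_nonneg (filter_subset (fun e => t < τ e) E)
        fun e _ _ => hτ0 e).trans hτ)
      rw [← nsmul_eq_mul, ← sum_const]
      exact sum_le_sum fun e he => (mem_filter.1 he).2.le
    rw [ht, ← mul_div_assoc, div_le_iff₀ hm] at h1
    have : (2 * #(E.filter fun e => t < τ e) : ℝ) ≤ #E :=
      le_of_mul_le_mul_left (a := n ^ 2) (by rw [ht]; linarith) (by positivity)
    exact_mod_cast this
  set E' := E \ E.filter fun e => t < τ e with hE'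
  have hsub : E' ⊆ E := sdiff_subset
  have hτt : ∀ e ∈ E', τ e ≤ t := fun e he =>
    not_lt.1 fun k => (mem_sdiff.1 he).2 (mem_filter.2 ⟨hsub he, k⟩)
  set s := ∑ e ∈ E, g e S with hsdef
  rcases (hF.nonneg S).eq_or_lt with h0 | h0
  · have := (sum_eq_zero_iff_of_nonneg fun e he => (hg e he).nonneg S).1 h0.symm
    rw [sum_eq_zero fun e he => by rw [this e (hsub he), mul_zero], abs_zero]
    exact mul_nonneg (Real.sqrt_nonneg _) h0.le
  replace h0 : 0 < s := h0
  have hr : 0 < 2 * s := by positivity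
  have hWS : ∑ u ∈ S, ∑ v ∈ Sᶜ, W u v ≤ 2 * s := by linarith [hcut S, hmin S h0]
  let A : ℕ → Finset V := fun j => S.filter fun u => 2 * s / 2 ^ j < ∑ v ∈ Sᶜ, W u v
  let B : ℕ → Finset V := fun j => Sᶜ.filter fun v => 2 * s / 2 ^ j < ∑ u ∈ S, W u v
  have hlt : ∀ j : ℕ, 2 * s / 2 ^ (j + 1) ≤ 2 * s / 2 ^ j := fun j =>
    div_le_div_of_nonneg_left hr.le (by positivity) (pow_le_pow_right₀ one_le_two j.le_succ)
  have hA : ∀ j, A j ⊆ A (j + 1) := fun j =>
    monotone_filter_right _ fun u _ k => (hlt j).trans_lt k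
  have hB : ∀ j, B j ⊆ B (j + 1) := fun j =>
    monotone_filter_right _ fun u _ k => (hlt j).trans_lt k
  have hd : ∀ j, Disjoint (A j) (B j) := fun j =>
    disjoint_compl_right.mono (filter_subset _ _) (filter_subset _ _)
  have step : ∀ e ∈ E, ∀ (j : ℕ) (A' B' : Finset V), A j ⊆ A' → A' ⊆ S → B j ⊆ B' → B' ⊆ Sᶜ →
      lam (g e) A' B' - lam (g e) (A j) (B j) ≤ 2 * (2 * s / 2 ^ j) * τ e :=
    fun e he j A' B' k1 k2 k3 k4 => lam_step (hg e he) hW (by positivity) (hN e he) k1 k2 k3 k4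
      (fun u hu k => not_lt.1 fun k' => k (mem_filter.2 ⟨hu, k'⟩))
      fun v hv k => not_lt.1 fun k' => k (mem_filter.2 ⟨hv, k'⟩)
  have hA0 : A 0 = ∅ := filter_eq_empty_iff.2 fun u hu => not_lt.2 (by
    rw [pow_zero, div_one]
    exact (single_le_sum (f := fun u => ∑ v ∈ Sᶜ, W u v)
      (fun u _ => sum_nonneg fun v _ => (hW u v).le) hu).trans hWS)
  let d : ℕ → ι → ℝ := fun j e => lam (g e) (A (j + 1)) (B (j + 1)) - lam (g e) (A j) (B j)
  have hd0 : ∀ j e, 0 ≤ d j e := fun j e => sub_nonneg.2 (lam_mono (hA j) (hB j) (hd _))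
  have tel : ∀ e ∈ E, ∀ J, ∑ j ∈ range J, d j e = lam (g e) (A J) (B J) := fun e he J => by
    rw [sum_range_sub fun j => lam (g e) (A j) (B j), hA0, lam_empty_left (hg e he), sub_zero]
  have top : ∀ e J, lam (g e) (A J) (B J) ≤ g e S := fun e J =>
    lam_le (filter_subset _ _) (disjoint_compl_right.mono_right (filter_subset _ _))
  set c := √(8 * t * (5 + Real.log n)) with hc
  have hc0 : 0 ≤ c := Real.sqrt_nonneg _
  have hc2 : c ^ 2 = 8 * t * (5 + Real.log n) := Real.sq_sqrt (by positivity)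
  have lev : ∀ j, |∑ e ∈ E', σ e * d j e| ≤
      c * ((∑ e ∈ E', d j e + 2 * s / 2 ^ j * (#(A (j + 1)) + #(B (j + 1)))) / 2) := by
    intro j
    have p0 : 0 ≤ ∑ e ∈ E', d j e := sum_nonneg fun e _ => hd0 j e
    have η0 : 0 < 2 * s / 2 ^ j := by positivity
    refine (hs _ _ _ _ (hA j) (hB j)).trans (Real.sqrt_le_iff.2 ⟨by positivity, ?_⟩)
    have q : ∑ e ∈ E', d j e ^ 2 ≤ 2 * (2 * s / 2 ^ j) * t * ∑ e ∈ E', d j e := by
      rw [mul_sum]
      refine sum_le_sum fun e he => ?_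
      rw [sq]
      exact mul_le_mul_of_nonneg_right ((step e (hsub he) j _ _ (hA j) (filter_subset _ _) (hB j)
        (filter_subset _ _)).trans (mul_le_mul_of_nonneg_left (hτt e he) (by positivity))) (hd0 j e)
    set p := ∑ e ∈ E', d j e
    set M : ℝ := #(A (j + 1)) + #(B (j + 1)) with hM
    have M0 : 0 ≤ M := by positivity
    set η := 2 * s / 2 ^ j
    calc _ ≤ 4 * (2 * η * t * p) * (M * (5 + Real.log n)) := by gcongr
      _ = c ^ 2 * (p * (η * M)) := by rw [hc2]; ring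
      _ ≤ c ^ 2 * ((p + η * M) / 2) ^ 2 :=
          mul_le_mul_of_nonneg_left (by nlinarith [sq_nonneg (p - η * M)]) (sq_nonneg c)
      _ = _ := by ring
  have all : ∀ J : ℕ, |∑ e ∈ E', σ e * g e S| ≤ c * (17 / 2 * s) + 4 * s * n ^ 2 * (1 / 2) ^ J := by
    intro J
    have e1 : ∑ e ∈ E', σ e * g e S = ∑ j ∈ range J, ∑ e ∈ E', σ e * d j e +
        ∑ e ∈ E', σ e * (g e S - lam (g e) (A J) (B J)) := by
      rw [sum_comm, ← sum_add_distrib]
      exact sum_congr rfl fun e he => by rw [← mul_sum, tel e (hsub he)]; ring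
    have e2 : |∑ e ∈ E', σ e * (g e S - lam (g e) (A J) (B J))| ≤ 4 * s * n ^ 2 * (1 / 2) ^ J := by
      refine (abs_sum_le_sum_abs _ _).trans ?_
      calc _ ≤ ∑ e ∈ E', 2 * (2 * s / 2 ^ J) * τ e := by
            refine sum_le_sum fun e he => ?_
            have k := step e (hsub he) J S Sᶜ (filter_subset _ _) subset_rfl (filter_subset _ _)
              subset_rfl
            rw [lam_self] at k
            rw [abs_mul, abs_of_nonneg (sub_nonneg.2 (top e J))]
            rcases hσ e with h | h <;> simpa [h] using k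
        _ ≤ 2 * (2 * s / 2 ^ J) * n ^ 2 := by
            rw [← mul_sum]
            exact mul_le_mul_of_nonneg_left ((sum_le_sum_of_subset_of_nonneg hsub
              fun e _ _ => hτ0 e).trans hτ) (by positivity)
        _ = _ := by rw [one_div, inv_pow]; field_simp; norm_num
    have e3 : ∑ j ∈ range J, ∑ e ∈ E', d j e ≤ s := by
      rw [sum_comm]
      exact (sum_le_sum fun e he => (tel e (hsub he) J).le.trans (top e J)).trans
        (sum_le_sum_of_subset_of_nonneg hsub fun e he _ => (hg e he).nonneg S)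
    have e4 := heavy_le S hr (x := fun u => ∑ v ∈ Sᶜ, W u v)
      (fun u _ => sum_nonneg fun v _ => (hW u v).le) J
    have e5 := heavy_le Sᶜ hr (x := fun v => ∑ u ∈ S, W u v)
      (fun v _ => sum_nonneg fun u _ => (hW u v).le) J
    rw [sum_comm] at e5
    rw [e1]
    refine (abs_add_le _ _).trans (add_le_add ?_ e2)
    refine ((abs_sum_le_sum_abs _ _).trans (sum_le_sum fun j _ => lev j)).trans ?_
    rw [← mul_sum]
    refine mul_le_mul_of_nonneg_left ?_ hc0
    simp only [mul_add, ← sum_div, sum_add_distrib]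
    linarith
  have lim : Tendsto (fun J : ℕ => c * (17 / 2 * s) + 4 * s * n ^ 2 * (1 / 2 : ℝ) ^ J) atTop
      (𝓝 (c * (17 / 2 * s) + 4 * s * n ^ 2 * 0)) :=
    tendsto_const_nhds.add ((tendsto_pow_atTop_nhds_zero_of_lt_one (by norm_num)
      (by norm_num)).const_mul _)
  refine (ge_of_tendsto' lim all).trans ?_
  rw [mul_zero, add_zero, ← mul_assoc]
  refine mul_le_mul_of_nonneg_right (Real.le_sqrt_of_sq_le ?_) h0.le
  rw [mul_pow, hc2, ht, le_div_iff₀ hm]
  field_simp
  nlinarith [mul_nonneg (sq_nonneg n) hl]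

end Pool.Agent.Lib.MP_348529_lc
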