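import Pool.Agent.Lib.MP_348529_lc.OL.Chain
import Pool.Agent.Lib.MP_348529_lc.Main

/-!
Repeated halving with the chaining round.
-/

namespace Pool.Agent.Lib.MP_348529_lc

open Finset

variable {V : Type} [Fintype V] [DecidableEq V]

theorem round1' {ι : Type} [DecidableEq ι] (E : Finset ι) (g : ι → Finset V → ℝ)
    (hg : ∀ e ∈ E, Sub (g e)) (hE : E.Nonempty) (hV : 0 < Fintype.card V) :
    ∃ E₁ ⊆ E, ∃ c : ι → ℝ, (∀ e, 0 < c e) ∧ 4 * #E₁ ≤ 3 * #E ∧
      ∀ S, |∑ e ∈ E₁, c e * g e S - ∑ e ∈ E, g e S| ≤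
        √(2312 * (Fintype.card V : ℝ) ^ 2 * (5 + Real.log (Fintype.card V)) / #E) *
          ∑ e ∈ E, g e S := by
  classical
  obtain ⟨I, hIE, σ, hσ, hI, h⟩ := round1 E g hg hE hV
  wlog hw : 2 * #((E \ I).filter fun e => σ e = 1) ≤ #(E \ I) generalizing σ
  · refine this (fun e => -σ e) (fun e => ?_) (fun S => ?_) ?_
    · rcases hσ e with h | h <;> simp [h]
    · simpa [abs_neg] using h S
    · have e1 := card_filter_add_card_filter_not (s := E \ I) (fun e => σ e = 1)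
      have e2 : ((E \ I).filter fun e => -σ e = 1) = (E \ I).filter fun e => ¬ σ e = 1 := by
        refine filter_congr fun e _ => ?_
        rcases hσ e with h | h <;> rw [h] <;> norm_num
      rw [e2]; omega
  have hdis : Disjoint I ((E \ I).filter fun e => σ e = 1) :=
    disjoint_sdiff.mono_right (filter_subset _ _)
  refine ⟨I ∪ (E \ I).filter fun e => σ e = 1,
    union_subset hIE ((filter_subset _ _).trans sdiff_subset), fun e => if e ∈ I then 1 else 2,
    fun e => by dsimp only; split_ifs <;> norm_num, ?_, fun S => ?_⟩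
  · rw [card_union_of_disjoint hdis]
    have := card_sdiff_add_card_eq_card hIE
    omega
  · refine le_trans (le_of_eq ?_) (h S)
    congr 1
    rw [sum_union hdis, ← sum_sdiff hIE, sum_filter]
    have e1 : ∑ e ∈ I, (if e ∈ I then (1 : ℝ) else 2) * g e S = ∑ e ∈ I, g e S :=
      sum_congr rfl fun e he => by simp [he]
    have e2 : ∑ e ∈ E \ I, (if σ e = 1 then (if e ∈ I then (1 : ℝ) else 2) * g e S else 0) =
        ∑ e ∈ E \ I, g e S + ∑ e ∈ E \ I, σ e * g e S := by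
      rw [← sum_add_distrib]
      refine sum_congr rfl fun e he => ?_
      rw [if_neg (mem_sdiff.1 he).2]
      rcases hσ e with h | h
      · rw [if_pos h, h]; ring
      · rw [if_neg (by rw [h]; norm_num), h]; ring
    rw [e1, e2]; ring

theorem sparsify1 {ι : Type} [DecidableEq ι] (hV : 0 < Fintype.card V)
    {ε : ℝ} (hε : 0 < ε) (hε1 : ε < 1) {Q : ℝ}
    (hQ : Q = 2312 * (Fintype.card V : ℝ) ^ 2 * (5 + Real.log (Fintype.card V))) (m : ℕ) :
    ∀ (E : Finset ι) (g : ι → Finset V → ℝ), #E = m → (∀ e ∈ E, Sub (g e)) → ∀ x : ℝ, #E ≤ x →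
      ∃ E' ⊆ E, ∃ s : ι → ℝ, (∀ e, 0 < s e) ∧ (#E' : ℝ) ≤ 225 * Q / ε ^ 2 ∧
        ∀ S, |∑ e ∈ E', s e * g e S - ∑ e ∈ E, g e S| ≤
          max 0 (ε - 13 * √(Q / x)) * ∑ e ∈ E, g e S := by
  have hQ0 : 0 < Q := by
    have : (0 : ℝ) < Fintype.card V := by exact_mod_cast hV
    have := Real.log_natCast_nonneg (Fintype.card V)
    rw [hQ]; positivity
  induction m using Nat.strong_induction_on with
  | _ m ih =>
  intro E g hm hg x hx
  have hF := (Sub.sum hg).nonneg
  by_cases hsmall : (#E : ℝ) ≤ 225 * Q / ε ^ 2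
  · refine ⟨E, subset_rfl, fun _ => 1, fun _ => one_pos, hsmall, fun S => ?_⟩
    simpa using mul_nonneg (le_max_left _ _) (hF S)
  push Not at hsmall
  have hm0 : (0 : ℝ) < #E := lt_trans (by positivity) hsmall
  have hm1 : 0 < #E := by exact_mod_cast hm0
  obtain ⟨E₁, hE₁, c, hc, hcard, h₁⟩ := round1' E g hg (card_pos.1 hm1) hV
  rw [← hQ] at h₁
  have hcard' : (#E₁ : ℝ) ≤ 3 / 4 * #E := by
    have : (4 * #E₁ : ℝ) ≤ 3 * #E := by exact_mod_cast hcard
    linarith
  obtain ⟨E', hE', s, hs, hcard'', h₂⟩ := ih #E₁ (by omega) E₁ (fun e S => c e * g e S) rfl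
    (fun e he => (hg e (hE₁ he)).smul (hc e).le) _ hcard'
  refine ⟨E', hE'.trans hE₁, fun e => s e * c e, fun e => mul_pos (hs e) (hc e), hcard'',
    fun S => ?_⟩
  set δ := √(Q / #E) with hδ
  have hδ0 : 0 ≤ δ := Real.sqrt_nonneg _
  have hδ2 : δ ^ 2 = Q / #E := Real.sq_sqrt (by positivity)
  have a1 : 15 / 13 * δ ≤ √(Q / (3 / 4 * #E)) := by
    refine Real.le_sqrt_of_sq_le ?_
    have : Q / (3 / 4 * #E) = 4 / 3 * (Q / #E) := by field_simp
    rw [this, mul_pow, hδ2]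
    have : 0 ≤ Q / #E := by positivity
    nlinarith
  have a2 : δ ≤ ε / 15 := by
    refine Real.sqrt_le_iff.2 ⟨by positivity, ?_⟩
    rw [div_lt_iff₀ (by positivity)] at hsmall
    rw [div_le_iff₀ hm0]
    nlinarith
  have a3 : √(Q / x) ≤ δ := Real.sqrt_le_sqrt (div_le_div_of_nonneg_left hQ0.le hm0 hx)
  have a4 : max 0 (ε - 13 * √(Q / (3 / 4 * #E))) ≤ ε - 15 * δ := max_le (by linarith) (by linarith)
  have a5 : ε - 13 * δ ≤ max 0 (ε - 13 * √(Q / x)) := le_max_of_le_right (by linarith)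
  have b1 := h₁ S
  have b2 := h₂ S
  have b3 := hF S
  simp only [mul_assoc] at b2 ⊢
  set A := ∑ e ∈ E', s e * (c e * g e S)
  set B := ∑ e ∈ E₁, c e * g e S
  set C := ∑ e ∈ E, g e S
  have b4 : B ≤ (1 + δ) * C := by linarith [(abs_le.1 b1).2]
  have b5 : 0 ≤ B := sum_nonneg fun e he => mul_nonneg (hc e).le ((hg e (hE₁ he)).nonneg S)
  have b6 : |A - B| ≤ (ε - 15 * δ) * ((1 + δ) * C) :=
    b2.trans (mul_le_mul a4 b4 b5 (by linarith))
  have b7 : |A - C| ≤ |A - B| + |B - C| := abs_sub_le _ _ _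
  have b8 : (ε - 15 * δ) * δ * C ≤ δ * C := by
    refine mul_le_mul_of_nonneg_right ?_ b3
    nlinarith
  refine le_trans ?_ (mul_le_mul_of_nonneg_right a5 b3)
  nlinarith

theorem main1 {ι : Type} [Fintype ι] (g : ι → Finset V → ℝ) (h0 : ∀ e, g e ∅ = 0)
    (h1 : ∀ e S, 0 ≤ g e S) (h2 : ∀ e S T, g e (S ∪ T) + g e (S ∩ T) ≤ g e S + g e T)
    {ε : ℝ} (hε : 0 < ε) (hε1 : ε < 1) :
    ∃ (E' : Finset ι) (s : ι → ℝ), (∀ e, 0 < s e) ∧
      (#E' : ℝ) ≤ 10 ^ 8 * (Fintype.card V : ℝ) ^ 2 * (1 + Real.log (Fintype.card V)) / ε ^ 2 ∧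
      ∀ S, |∑ e ∈ E', s e * g e S - ∑ e, g e S| ≤ ε * ∑ e, g e S := by
  classical
  rcases isEmpty_or_nonempty V with hV | hV
  · refine ⟨∅, fun _ => 1, fun _ => one_pos, by simp, fun S => ?_⟩
    simp [Subsingleton.elim S ∅, h0]
  have hn : 0 < Fintype.card V := Fintype.card_pos
  obtain ⟨E', -, s, hs, hc, h⟩ := sparsify1 (V := Option V) (ι := ι) Fintype.card_pos hε hε1 rfl _
    univ (fun e => extend (g e)) rfl (fun e _ => extend_sub (h0 e) (h1 e) (h2 e)) _ le_rfl
  refine ⟨E', s, hs, hc.trans (div_le_div_of_nonneg_right ?_ (by positivity)), fun S => ?_⟩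
  · set n : ℝ := (Fintype.card V : ℝ) with hn'
    have hn1 : 1 ≤ n := by rw [hn']; exact_mod_cast hn
    have hl0 : 0 ≤ Real.log n := Real.log_nonneg hn1
    have hl : Real.log (n + 1) ≤ 1 + Real.log n := by
      have e := Real.log_le_log (by positivity) (show n + 1 ≤ 2 * n by linarith)
      rw [Real.log_mul (by norm_num) (by positivity)] at e
      linarith [Real.log_two_lt_d9]
    have hl1 : 0 ≤ Real.log (n + 1) := Real.log_nonneg (by linarith)
    rw [Fintype.card_option]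
    push_cast
    rw [← hn']
    calc 225 * (2312 * (n + 1) ^ 2 * (5 + Real.log (n + 1)))
        ≤ 225 * (2312 * (2 * n) ^ 2 * (6 * (1 + Real.log n))) := by
          gcongr <;> linarith
      _ = 12484800 * (n ^ 2 * (1 + Real.log n)) := by ring
      _ ≤ 10 ^ 8 * (n ^ 2 * (1 + Real.log n)) := by gcongr; norm_num
      _ = _ := by ring
  · have := h (S.map Function.Embedding.some)
    simp only [extend_map] at this
    refine this.trans (mul_le_mul_of_nonneg_right (max_le hε.le (sub_le_self _ ?_))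
      (sum_nonneg fun e _ => h1 e S))
    positivity

end Pool.Agent.Lib.MP_348529_lc
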