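import Pool.Agent.Lib.MP_348529_lc.Closure

/-!
The linking function of a submodular function and the row bound for feasible pair weights.
-/

namespace Pool.Agent.Lib.MP_348529_lc

open Finset

variable {V : Type} [Fintype V] [DecidableEq V] {g : Finset V → ℝ}

/-- Cheapest value of a set containing `A` and avoiding `B`. -/
noncomputable def lam (g : Finset V → ℝ) (A B : Finset V) : ℝ :=
  (univ : Finset (Finset V)).inf' univ_nonempty fun T => g ((A ∪ T) \ B)

theorem lam_le {A B T : Finset V} (hA : A ⊆ T) (hB : Disjoint T B) : lam g A B ≤ g T := by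
  have := inf'_le (fun T => g ((A ∪ T) \ B)) (mem_univ T)
  rwa [union_eq_right.2 hA, sdiff_eq_self_of_disjoint hB] at this

theorem exists_lam (g : Finset V → ℝ) {A B : Finset V} (h : Disjoint A B) :
    ∃ T, A ⊆ T ∧ Disjoint T B ∧ g T = lam g A B := by
  obtain ⟨T, -, hT⟩ := exists_mem_eq_inf' (univ_nonempty (α := Finset V))
    fun T => g ((A ∪ T) \ B)
  exact ⟨(A ∪ T) \ B, subset_sdiff.2 ⟨subset_union_left, h⟩, sdiff_disjoint, hT.symm⟩

theorem lam_nonneg (h : Sub g) (A B : Finset V) : 0 ≤ lam g A B :=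
  le_inf' _ _ fun _ _ => h.nonneg _

theorem lam_mono {A B A' B' : Finset V} (hA : A ⊆ A') (hB : B ⊆ B') (h : Disjoint A' B') :
    lam g A B ≤ lam g A' B' := by
  obtain ⟨T, h1, h2, h3⟩ := exists_lam g h
  exact h3 ▸ lam_le (hA.trans h1) (h2.mono_right hB)

theorem lam_sub (h : Sub g) {A B A' B' : Finset V} (d : Disjoint A B) (d' : Disjoint A' B') :
    lam g (A ∪ A') (B ∩ B') + lam g (A ∩ A') (B ∪ B') ≤ lam g A B + lam g A' B' := by
  obtain ⟨T, h1, h2, h3⟩ := exists_lam g d
  obtain ⟨T', k1, k2, k3⟩ := exists_lam g d'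
  have a1 : lam g (A ∪ A') (B ∩ B') ≤ g (T ∪ T') := lam_le (union_subset_union h1 k1)
    (disjoint_union_left.2 ⟨h2.mono_right inter_subset_left, k2.mono_right inter_subset_right⟩)
  have a2 : lam g (A ∩ A') (B ∪ B') ≤ g (T ∩ T') := lam_le (inter_subset_inter h1 k1)
    (disjoint_union_right.2 ⟨h2.mono_left inter_subset_left, k2.mono_left inter_subset_right⟩)
  linarith [h.sub T T']

theorem lam_empty_left (h : Sub g) (B : Finset V) : lam g ∅ B = 0 :=
  le_antisymm (h.empty ▸ lam_le subset_rfl (disjoint_empty_left _)) (lam_nonneg h _ _)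

theorem lam_empty_right (h : Sub g) (A : Finset V) : lam g A ∅ = 0 :=
  le_antisymm (h.univ ▸ lam_le (subset_univ _) (disjoint_empty_right _)) (lam_nonneg h _ _)

theorem lam_self (g : Finset V → ℝ) (S : Finset V) : lam g S Sᶜ = g S := by
  obtain ⟨T, h1, h2, h3⟩ := exists_lam g (disjoint_compl_right (a := S))
  rw [← h3, Subset.antisymm (disjoint_compl_right_iff.1 h2) h1]

theorem lam_le_compl {A B : Finset V} (d : Disjoint A B) :
    lam g A B ≤ lam (fun S => g Sᶜ) B A := by
  obtain ⟨T, h1, h2, h3⟩ := exists_lam (fun S => g Sᶜ) d.symm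
  rw [← h3]
  exact lam_le (subset_compl_iff_disjoint_left.2 h2) (disjoint_compl_left.mono_right h1)

theorem lam_union_left (h : Sub g) {A A' B : Finset V} (d : Disjoint A B) (d' : Disjoint A' B) :
    lam g (A ∪ A') B ≤ lam g A B + lam g A' B := by
  have := lam_sub h d d'
  rw [inter_self, union_self] at this
  linarith [lam_nonneg h (A ∩ A') B]

theorem lam_union_right (h : Sub g) {A B B' : Finset V} (d : Disjoint A B) (d' : Disjoint A B') :
    lam g A (B ∪ B') ≤ lam g A B + lam g A B' := by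
  have := lam_sub h d d'
  rw [inter_self, union_self] at this
  linarith [lam_nonneg h A (B ∩ B')]

theorem lam_le_sum (h : Sub g) (A B : Finset V) (d : Disjoint A B) :
    lam g A B ≤ ∑ v ∈ B, lam g A {v} := by
  induction B using Finset.induction_on with
  | empty => simp [lam_empty_right h]
  | insert b B hb ih =>
    rw [sum_insert hb, insert_eq]
    have d1 : Disjoint A B := d.mono_right (subset_insert _ _)
    have d2 : Disjoint A {b} := d.mono_right (by simp)
    linarith [lam_union_right h d2 d1, ih d1]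

/-- Marginal values of the rows along a fixed order. -/
theorem exists_marg (h : Sub g) (B A : Finset V) (d : Disjoint A B) : ∃ w : V → V → ℝ,
    (∀ u ∈ A, ∀ v ∈ B, 0 ≤ w u v) ∧ (∀ v ∈ B, ∑ u ∈ A, w u v = lam g A {v}) ∧
      ∀ X ⊆ A, ∀ Y ⊆ B, ∀ c : V → V → ℝ, (∀ u v, 0 ≤ c u v) → (∀ u ∈ X, ∑ v ∈ Y, c u v ≤ 1) →
        ∑ u ∈ X, ∑ v ∈ Y, w u v * c u v ≤ lam g X Y := by
  induction A using Finset.induction_on with
  | empty =>
    refine ⟨fun _ _ => 0, fun _ _ _ _ => le_rfl, fun v _ => by simp [lam_empty_left h],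
      fun X _ Y _ c _ _ => by simpa using lam_nonneg h X Y⟩
  | insert a A ha ih =>
    have d1 : Disjoint A B := d.mono_left (subset_insert _ _)
    obtain ⟨w, h1, h2, h3⟩ := ih d1
    have ne : ∀ u ∈ A, u ≠ a := fun u hu e => ha (e ▸ hu)
    refine ⟨fun u v => if u = a then lam g (insert a A) {v} - lam g A {v} else w u v,
      fun u hu v hv => ?_, fun v hv => ?_, fun X hX Y hY c hc hc1 => ?_⟩
    · dsimp only
      split_ifs with e
      · exact sub_nonneg.2 (lam_mono (subset_insert _ _) subset_rfl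
          (d.mono_right (singleton_subset_iff.2 hv)))
      · exact h1 u ((mem_insert.1 hu).resolve_left e) v hv
    · dsimp only
      rw [sum_insert ha, if_pos rfl, sum_congr rfl fun u hu => if_neg (ne u hu), h2 v hv]
      ring
    · have hX' : X.erase a ⊆ A := fun u hu =>
        (mem_insert.1 (hX (mem_of_mem_erase hu))).resolve_left (ne_of_mem_erase hu)
      have k := h3 _ hX' Y hY c hc fun u hu => hc1 u (mem_of_mem_erase hu)
      have e : ∑ u ∈ X.erase a, ∑ v ∈ Y, (if u = a then lam g (insert a A) {v} - lam g A {v}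
          else w u v) * c u v = ∑ u ∈ X.erase a, ∑ v ∈ Y, w u v * c u v :=
        sum_congr rfl fun u hu => by simp only [if_neg (ne_of_mem_erase hu)]
      by_cases haX : a ∈ X
      · rw [← add_sum_erase _ _ haX, e]
        have dX : Disjoint X Y := d.mono hX hY
        have m : 0 ≤ lam g X Y - lam g (X.erase a) Y :=
          sub_nonneg.2 (lam_mono (erase_subset _ _) subset_rfl dX)
        have : ∑ v ∈ Y, (if a = a then lam g (insert a A) {v} - lam g A {v} else w a v) * c a v ≤
            ∑ v ∈ Y, (lam g X Y - lam g (X.erase a) Y) * c a v := by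
          refine sum_le_sum fun v hv => mul_le_mul_of_nonneg_right ?_ (hc a v)
          have s := lam_sub h dX (d1.mono_right (singleton_subset_iff.2 (hY hv)))
          have e1 : X ∪ A = insert a A := Subset.antisymm
            (union_subset hX (subset_insert _ _))
            (insert_subset (mem_union_left _ haX) subset_union_right)
          have e2 : X ∩ A = X.erase a := Subset.antisymm
            (fun u hu => mem_erase.2 ⟨ne u (mem_inter.1 hu).2, (mem_inter.1 hu).1⟩)
            (subset_inter (erase_subset _ _) hX')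
          rw [e1, e2, inter_singleton_of_mem hv,
            union_eq_left.2 (singleton_subset_iff.2 hv)] at s
          rw [if_pos rfl]
          linarith
        rw [← mul_sum] at this
        nlinarith [hc1 a haX]
      · rw [erase_eq_of_notMem haX] at e k
        rw [e]
        exact k

/-- Pair weights whose cuts are dominated by `g`. -/
structure Feas (g : Finset V → ℝ) (G : V → V → ℝ) : Prop where
  nn : ∀ u v, 0 ≤ G u v
  diag : ∀ u, G u u = 0
  cut : ∀ S, ∑ u ∈ S, ∑ v ∈ Sᶜ, G u v ≤ g S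

theorem Feas.tr {G : V → V → ℝ} (h : Feas (fun S => g Sᶜ) G) : Feas g fun u v => G v u :=
  ⟨fun u v => h.nn v u, h.diag, fun S => by
    have := h.cut Sᶜ
    rwa [compl_compl, sum_comm] at this⟩

theorem lam_le_row (h : Sub g) {W : V → V → ℝ} (hW : ∀ u v, 0 < W u v) {τ η : ℝ} (hη : 0 < η)
    (hτ : ∀ G, Feas g G → ∑ u, ∑ v, G u v / W u v ≤ τ) {A B : Finset V} (d : Disjoint A B)
    (hr : ∀ u ∈ A, ∑ v ∈ B, W u v ≤ η) : lam g A B ≤ η * τ := by
  obtain ⟨w, h1, h2, h3⟩ := exists_marg h B A d
  have key : ∀ (X Y : Finset V) (f : V → V → ℝ),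
      ∑ u ∈ X, ∑ v ∈ Y, (if u ∈ A ∧ v ∈ B then f u v else 0) =
        ∑ u ∈ X ∩ A, ∑ v ∈ Y ∩ B, f u v := by
    intro X Y f
    rw [← sum_ite_mem]
    refine sum_congr rfl fun u _ => ?_
    split_ifs with hu
    · simp only [hu, true_and, sum_ite_mem]
    · simp [hu]
  have hG : Feas g fun u v => if u ∈ A ∧ v ∈ B then w u v * (W u v / η) else 0 := by
    refine ⟨fun u v => ?_, fun u => if_neg fun k => disjoint_left.1 d k.1 k.2, fun S => ?_⟩
    · split_ifs with k
      · exact mul_nonneg (h1 u k.1 v k.2) (div_pos (hW u v) hη).le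
      · exact le_rfl
    · rw [key]
      refine (h3 _ inter_subset_right _ inter_subset_right (fun u v => W u v / η)
        (fun u v => (div_pos (hW u v) hη).le) fun u hu => ?_).trans
        (lam_le inter_subset_left (disjoint_compl_right.mono_right inter_subset_left))
      rw [← sum_div, div_le_one hη]
      exact (sum_le_sum_of_subset_of_nonneg inter_subset_right fun v _ _ => (hW u v).le).trans
        (hr u (mem_inter.1 hu).2)
  have k := hτ _ hG
  have e : ∀ u v, (if u ∈ A ∧ v ∈ B then w u v * (W u v / η) else 0) / W u v =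
      if u ∈ A ∧ v ∈ B then w u v / η else 0 := by
    intro u v
    have := (hW u v).ne'
    split_ifs
    · field_simp
    · simp
  simp only [e] at k
  rw [key, univ_inter, univ_inter, sum_comm] at k
  simp only [← sum_div] at k
  rw [sum_congr rfl h2, div_le_iff₀ hη] at k
  linarith [lam_le_sum h A B d]

theorem lam_le_col (h : Sub g) {W : V → V → ℝ} (hW : ∀ u v, 0 < W u v) {τ η : ℝ} (hη : 0 < η)
    (hτ : ∀ G, Feas g G → ∑ u, ∑ v, G u v / W u v ≤ τ) {A B : Finset V} (d : Disjoint A B)
    (hr : ∀ v ∈ B, ∑ u ∈ A, W u v ≤ η) : lam g A B ≤ η * τ :=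
  (lam_le_compl d).trans (lam_le_row h.compl (W := fun v u => W u v) (fun v u => hW u v) hη
    (fun G hG => by rw [sum_comm]; exact hτ _ hG.tr) d.symm hr)

theorem lam_step (h : Sub g) {W : V → V → ℝ} (hW : ∀ u v, 0 < W u v) {τ η : ℝ} (hη : 0 < η)
    (hτ : ∀ G, Feas g G → ∑ u, ∑ v, G u v / W u v ≤ τ) {S A A' B B' : Finset V} (hA : A ⊆ A')
    (hA' : A' ⊆ S) (hB : B ⊆ B') (hB' : B' ⊆ Sᶜ)
    (hr : ∀ u ∈ S, u ∉ A → ∑ v ∈ Sᶜ, W u v ≤ η) (hc : ∀ v ∈ Sᶜ, v ∉ B → ∑ u ∈ S, W u v ≤ η) :
    lam g A' B' - lam g A B ≤ 2 * η * τ := by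
  have d : Disjoint A' B' := disjoint_compl_right.mono hA' hB'
  have h1 := lam_union_left h (d.mono_left hA) (d.mono_left (sdiff_subset (t := A)))
  have h2 := lam_union_right h (d.mono hA hB) (d.mono hA (sdiff_subset (t := B)))
  rw [union_sdiff_of_subset hA] at h1
  rw [union_sdiff_of_subset hB] at h2
  have h3 := lam_le_row h hW hη hτ (d.mono_left (sdiff_subset (t := A))) fun u hu =>
    (sum_le_sum_of_subset_of_nonneg hB' fun v _ _ => (hW u v).le).trans
      (hr u (hA' (mem_sdiff.1 hu).1) (mem_sdiff.1 hu).2)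
  have h4 := lam_le_col h hW hη hτ (d.mono hA (sdiff_subset (t := B))) fun v hv =>
    (sum_le_sum_of_subset_of_nonneg (hA.trans hA') fun u _ _ => (hW u v).le).trans
      (hc v (hB' (mem_sdiff.1 hv).1) (mem_sdiff.1 hv).2)
  linarith

end Pool.Agent.Lib.MP_348529_lc
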