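import Pool.Agent.Lib.MP_348529_lc.OL.Lam

/-!
Pair weights that maximise a product: every function is dominated by its share of the weights.
-/

namespace Pool.Agent.Lib.MP_348529_lc

open Finset Filter Topology

theorem sum_nonpos_of_prod {P : Type} [Fintype P] {W D : P → ℝ} (hW : ∀ p, 0 < W p)
    (hD : ∀ t ∈ Set.Ioo (0 : ℝ) 1, ∀ p, 0 < W p + t * D p)
    (h : ∀ t ∈ Set.Ioo (0 : ℝ) 1, ∏ p, (W p + t * D p) ≤ ∏ p, W p) : ∑ p, D p / W p ≤ 0 := by
  have h1 : ∀ t ∈ Set.Ioo (0 : ℝ) 1, ∑ p, D p / (W p + t * D p) ≤ 0 := by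
    intro t ht
    have a := Real.log_le_log (prod_pos fun p _ => hD t ht p) (h t ht)
    rw [Real.log_prod fun p _ => (hD t ht p).ne', Real.log_prod fun p _ => (hW p).ne',
      ← sub_nonpos, ← sum_sub_distrib] at a
    have b : ∑ p, t * (D p / (W p + t * D p)) ≤ ∑ p, (Real.log (W p + t * D p) - Real.log (W p)) :=
      sum_le_sum fun p _ => by
        have k1 := hD t ht p
        have k2 := hW p
        have := Real.one_sub_inv_le_log_of_pos (div_pos k1 k2)
        rw [Real.log_div k1.ne' k2.ne'] at this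
        refine le_trans (le_of_eq ?_) this
        field_simp
        ring
    rw [← mul_sum] at b
    exact le_of_mul_le_mul_left (by rw [mul_zero]; exact b.trans a) ht.1
  have h2 : ContinuousAt (fun t : ℝ => ∑ p, D p / (W p + t * D p)) 0 :=
    tendsto_finsetSum _ fun p _ => ContinuousAt.div continuousAt_const (by fun_prop)
      (by simpa using (hW p).ne')
  have h3 := le_of_tendsto (h2.tendsto.mono_left (nhdsWithin_le_nhds (s := Set.Ioi 0)))
    (mem_of_superset (Ioo_mem_nhdsGT one_pos) h1)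
  simpa using h3

variable {V : Type} [Fintype V] [DecidableEq V]

theorem isCompact_feas (g : Finset V → ℝ) (h : Sub g) : IsCompact {G | Feas g G} := by
  refine (isCompact_Icc (a := (0 : V → V → ℝ)) (b := fun u _ => g {u})).of_isClosed_subset ?_ ?_
  · have : {G | Feas g G} = (⋂ u, ⋂ v, {G : V → V → ℝ | 0 ≤ G u v}) ∩ (⋂ u, {G | G u u = 0}) ∩
        ⋂ S, {G | ∑ u ∈ S, ∑ v ∈ Sᶜ, G u v ≤ g S} := by
      ext G
      simp only [Set.mem_ofPred_eq, Set.mem_inter_iff, Set.mem_iInter]
      exact ⟨fun k => ⟨⟨k.nn, k.diag⟩, k.cut⟩, fun k => ⟨k.1.1, k.1.2, k.2⟩⟩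
    rw [this]
    refine ((isClosed_iInter fun u => isClosed_iInter fun v => ?_).inter
      (isClosed_iInter fun u => ?_)).inter (isClosed_iInter fun S => ?_)
    · exact isClosed_le continuous_const (by fun_prop)
    · exact isClosed_eq (by fun_prop) continuous_const
    · exact isClosed_le (by fun_prop) continuous_const
  · intro G hG
    refine ⟨fun u v => hG.nn u v, fun u v => ?_⟩
    by_cases e : v = u
    · rw [e, hG.diag]; exact h.nonneg _
    · have := hG.cut {u}
      rw [sum_singleton] at this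
      exact (single_le_sum (fun v _ => hG.nn u v) (by simpa using e)).trans this

theorem exists_nash {ι : Type} [DecidableEq ι] (E : Finset ι) (g : ι → Finset V → ℝ)
    (hg : ∀ e ∈ E, Sub (g e)) {δ : ℝ} (hδ : 0 < δ) : ∃ (W : V → V → ℝ) (τ : ι → ℝ),
    (∀ u v, 0 < W u v) ∧ (∀ e, 0 ≤ τ e) ∧ ∑ e ∈ E, τ e ≤ (Fintype.card V : ℝ) ^ 2 ∧
      (∀ S, ∑ u ∈ S, ∑ v ∈ Sᶜ, W u v ≤ ∑ e ∈ E, g e S + (Fintype.card V : ℝ) ^ 2 * δ) ∧
      ∀ e ∈ E, ∀ G, Feas (g e) G → ∑ u, ∑ v, G u v / W u v ≤ τ e := by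
  have hK : IsCompact (Set.univ.pi fun e : E => {G | Feas (g e) G}) :=
    isCompact_univ_pi fun e => isCompact_feas _ (hg e e.2)
  obtain ⟨F, hF, hmax⟩ := hK.exists_isMaxOn
    (f := fun F : E → V → V → ℝ => ∏ p : V × V, (δ + ∑ e, F e p.1 p.2))
    ⟨0, fun e _ => ⟨fun _ _ => le_rfl, fun _ => rfl, fun S => by simpa using (hg e e.2).nonneg S⟩⟩
    (Continuous.continuousOn (by fun_prop))
  have hF' : ∀ e : E, Feas (g e) (F e) := fun e => hF e trivial
  have hW : ∀ u v, 0 < δ + ∑ e, F e u v := fun u v =>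
    add_pos_of_pos_of_nonneg hδ (sum_nonneg fun e _ => (hF' e).nn u v)
  refine ⟨fun u v => δ + ∑ e, F e u v,
    fun e => if he : e ∈ E then ∑ u, ∑ v, F ⟨e, he⟩ u v / (δ + ∑ e, F e u v) else 0, hW,
    fun e => ?_, ?_, fun S => ?_, fun e he G hG => ?_⟩
  · dsimp only
    split_ifs with he
    · exact sum_nonneg fun u _ => sum_nonneg fun v _ => div_nonneg ((hF' _).nn u v) (hW u v).le
    · exact le_rfl
  · rw [← sum_coe_sort E]
    simp only [coe_mem, dite_true]
    rw [sum_comm]
    calc _ ≤ ∑ _u : V, ∑ _v : V, (1 : ℝ) := by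
          refine sum_le_sum fun u _ => ?_
          rw [sum_comm]
          refine sum_le_sum fun v _ => ?_
          rw [← sum_div, div_le_one (hW u v)]
          linarith
      _ = _ := by simp [sq]
  · simp only [sum_add_distrib]
    have a1 : ∑ u ∈ S, ∑ v ∈ Sᶜ, ∑ e, F e u v ≤ ∑ e ∈ E, g e S := by
      rw [← sum_coe_sort E, sum_congr rfl fun u _ => sum_comm, sum_comm]
      exact sum_le_sum fun e _ => (hF' e).cut S
    have a2 : ∑ _u ∈ S, ∑ _v ∈ Sᶜ, δ ≤ (Fintype.card V : ℝ) ^ 2 * δ := by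
      simp only [sum_const, nsmul_eq_mul]
      have b1 : (#S : ℝ) ≤ Fintype.card V := by exact_mod_cast card_le_univ S
      have b2 : (#Sᶜ : ℝ) ≤ Fintype.card V := by exact_mod_cast card_le_univ Sᶜ
      rw [sq, mul_assoc]
      gcongr
    linarith
  · dsimp only
    rw [dif_pos he, ← sub_nonpos, ← sum_sub_distrib]
    simp only [← sum_sub_distrib, ← sub_div]
    rw [← Fintype.sum_prod_type']
    have hmem : ∀ t ∈ Set.Ioo (0 : ℝ) 1, ∀ e' : E, Feas (g e') (Function.update F ⟨e, he⟩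
        (fun u v => F ⟨e, he⟩ u v + t * (G u v - F ⟨e, he⟩ u v)) e') := by
      intro t ht e'
      by_cases k : e' = ⟨e, he⟩
      · subst k
        rw [Function.update_self]
        have k := hF' ⟨e, he⟩
        refine ⟨fun u v => by nlinarith [k.nn u v, hG.nn u v, ht.1, ht.2],
          fun u => by simp [k.diag, hG.diag], fun S => ?_⟩
        simp only [sum_add_distrib, ← mul_sum, sum_sub_distrib]
        nlinarith [k.cut S, hG.cut S, ht.1, ht.2]
      · rw [Function.update_of_ne k]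
        exact hF' e'
    have hsum : ∀ (t : ℝ) (u v : V), δ + ∑ e', Function.update F ⟨e, he⟩
        (fun u v => F ⟨e, he⟩ u v + t * (G u v - F ⟨e, he⟩ u v)) e' u v =
        δ + ∑ e, F e u v + t * (G u v - F ⟨e, he⟩ u v) := by
      intro t u v
      rw [← add_sum_erase _ _ (mem_univ (⟨e, he⟩ : E)),
        ← add_sum_erase _ (fun e => F e u v) (mem_univ (⟨e, he⟩ : E)), Function.update_self,
        sum_congr rfl fun e' k => by rw [Function.update_of_ne (ne_of_mem_erase k)]]
      ring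
    refine sum_nonpos_of_prod (P := V × V) (W := fun p => δ + ∑ e, F e p.1 p.2)
      (D := fun p => G p.1 p.2 - F ⟨e, he⟩ p.1 p.2) (fun p => hW _ _) (fun t ht p => ?_)
      fun t ht => ?_
    · rw [← hsum]
      exact add_pos_of_pos_of_nonneg hδ (sum_nonneg fun e' _ => (hmem t ht e').nn _ _)
    · have := hmax (a := Function.update F ⟨e, he⟩
        fun u v => F ⟨e, he⟩ u v + t * (G u v - F ⟨e, he⟩ u v)) fun e' _ => hmem t ht e'
      simpa only [Set.mem_ofPred_eq, hsum] using this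

end Pool.Agent.Lib.MP_348529_lc
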